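import Mathlib
import Pool.Agent.Q198.Comb
import Pool.Agent.Q198.Schur

set_option autoImplicit false

/-!
# MP_8d662a: a combinatorial Banach space with the Schur property without property `(S*)`
-/

namespace Pool.Agent.Results.MP_8d662a_an.SchurNotSStar

open Filter Topology Set Pool.Agent.Q198.Comb Pool.Agent.Q198.Schur

/-- Property `(S*)`: for every sequence of pairwise disjoint members of `𝓕` there is a finite
`𝒜 ⊆ closureFam 𝓕` whose union contains infinitely many of them. -/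
def SStar (𝓕 : Set (Finset ℕ)) : Prop :=
  ∀ F : ℕ → Finset ℕ, (∀ n, F n ∈ 𝓕) → (Pairwise fun m n => Disjoint (F m) (F n)) →
    ∃ 𝒜 : Set (Set ℕ), 𝒜.Finite ∧ 𝒜 ⊆ closureFam 𝓕 ∧ {n | (F n : Set ℕ) ⊆ ⋃₀ 𝒜}.Infinite

/-- The ground set of the counterexample: pairs `(n, p)` where `p` is an `(n + 1)`-element subset
of a `(2n + 2)`-element set. -/
abbrev Gr : Type :=
  {p : ℕ × Finset ℕ // p.2 ⊆ Finset.range (2 * (p.1 + 1)) ∧ p.2.card = p.1 + 1}

instance : Nonempty Gr := ⟨⟨(0, {0}), by simp, by simp⟩⟩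

theorem exists_blk : ∃ (blk : ℕ → ℕ) (pt : ℕ → Finset ℕ),
    (∀ k, pt k ⊆ Finset.range (2 * (blk k + 1)) ∧ (pt k).card = blk k + 1) ∧
    (∀ n (p : Finset ℕ), p ⊆ Finset.range (2 * (n + 1)) → p.card = n + 1 →
      ∃ k, blk k = n ∧ pt k = p) := by
  obtain ⟨f, hf⟩ := exists_surjective_nat Gr
  refine ⟨fun k => (f k).1.1, fun k => (f k).1.2, fun k => (f k).2, fun n p h1 h2 => ?_⟩
  obtain ⟨k, hk⟩ := hf ⟨(n, p), h1, h2⟩
  exact ⟨k, by simp only [hk], by simp only [hk]⟩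

section

variable (blk : ℕ → ℕ) (pt : ℕ → Finset ℕ)

/-- The family of the counterexample. -/
def fam : Set (Finset ℕ) :=
  {F | (∃ n, ∀ k ∈ F, blk k = n) ∨ ∃ g : ℕ → ℕ, ∀ k ∈ F, g (blk k) ∈ pt k}

theorem hereditary_fam : HereditaryCover (fam blk pt) := by
  constructor
  · rintro F (⟨n, hn⟩ | ⟨g, hg⟩) G hG
    · exact Or.inl ⟨n, fun k hk => hn k (hG hk)⟩
    · exact Or.inr ⟨g, fun k hk => hg k (hG hk)⟩
  · intro n
    exact Or.inl ⟨blk n, fun k hk => by rw [Finset.mem_singleton.1 hk]⟩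

variable (hpt : ∀ k, pt k ⊆ Finset.range (2 * (blk k + 1)) ∧ (pt k).card = blk k + 1)
include hpt

/-- Averaging. -/
theorem exists_half (S : Finset ℕ) (a : ℕ → ℝ) : ∃ F ∈ fam blk pt,
    (1 / 2) * ∑ k ∈ S, |a k| ≤ ∑ k ∈ F, |a k| := by
  classical
  have key : ∀ n, ∃ i, (1 / 2) * ∑ k ∈ S.filter (fun k => blk k = n), |a k| ≤
      ∑ k ∈ (S.filter (fun k => blk k = n)).filter (fun k => i ∈ pt k), |a k| := by
    intro n
    by_contra hcon
    push Not at hcon
    have h1 : ∑ i ∈ Finset.range (2 * (n + 1)),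
        ∑ k ∈ (S.filter (fun k => blk k = n)).filter (fun k => i ∈ pt k), |a k| =
        (n + 1) * ∑ k ∈ S.filter (fun k => blk k = n), |a k| := by
      simp only [Finset.sum_filter (fun k => _ ∈ pt k)]
      rw [Finset.sum_comm, Finset.mul_sum]
      refine Finset.sum_congr rfl fun k hk => ?_
      have hb : blk k = n := (Finset.mem_filter.1 hk).2
      rw [← Finset.sum_filter]
      have : (Finset.range (2 * (n + 1))).filter (fun i => i ∈ pt k) = pt k := by
        ext i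
        rw [Finset.mem_filter]
        refine ⟨fun h => h.2, fun h => ⟨?_, h⟩⟩
        have := (hpt k).1 h
        rwa [hb] at this
      rw [this, Finset.sum_const, (hpt k).2, hb, nsmul_eq_mul]
      push_cast
      ring
    have h2 : ∑ i ∈ Finset.range (2 * (n + 1)),
        ∑ k ∈ (S.filter (fun k => blk k = n)).filter (fun k => i ∈ pt k), |a k| <
        ∑ i ∈ Finset.range (2 * (n + 1)), (1 / 2) * ∑ k ∈ S.filter (fun k => blk k = n), |a k| :=
      Finset.sum_lt_sum_of_nonempty ⟨0, by simp⟩ fun i _ => hcon i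
    rw [h1, Finset.sum_const, Finset.card_range, nsmul_eq_mul] at h2
    push_cast at h2
    linarith
  choose g hg using key
  refine ⟨S.filter (fun k => g (blk k) ∈ pt k), Or.inr ⟨g, fun k hk =>
    (Finset.mem_filter.1 hk).2⟩, ?_⟩
  rw [← Finset.sum_fiberwise_of_maps_to (s := S) (t := S.image blk) (g := blk)
    (fun k hk => Finset.mem_image_of_mem _ hk),
    ← Finset.sum_fiberwise_of_maps_to (s := S.filter (fun k => g (blk k) ∈ pt k))
      (t := S.image blk) (g := blk)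
      (fun k hk => Finset.mem_image_of_mem _ (Finset.mem_filter.1 hk).1), Finset.mul_sum]
  refine Finset.sum_le_sum fun n _ => (hg n).trans (le_of_eq ?_)
  refine Finset.sum_congr ?_ fun _ _ => rfl
  ext k
  simp only [Finset.mem_filter]
  constructor
  · rintro ⟨⟨h1, h2⟩, h3⟩
    exact ⟨⟨h1, by rwa [h2]⟩, h2⟩
  · rintro ⟨⟨h1, h2⟩, h3⟩
    exact ⟨⟨h1, h3⟩, by rwa [h3] at h2⟩

theorem schur_fam (X : Type) [NormedAddCommGroup X] [NormedSpace ℝ X] (e : ℕ → X)
    (he : IsCombSpace (fam blk pt) X e) : Schur X := by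
  have := he.complete
  refine schur_of_lower e he.dense (fun k => ?_) (1 / 2) (by norm_num) fun a => ?_
  · have := he.norm_eq (Finsupp.single k 1)
    rw [Finsupp.linearCombination_single, one_smul] at this
    refine this.2 ?_
    rintro _ ⟨F, hF, rfl⟩
    classical
    have : ∑ j ∈ F, |(Finsupp.single k (1 : ℝ)) j| = if k ∈ F then 1 else 0 := by
      simp [Finsupp.single_apply, apply_ite abs]
    rw [this]
    split_ifs <;> norm_num
  · obtain ⟨F, hF, h⟩ := exists_half blk pt hpt a.support a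
    exact h.trans ((he.norm_eq a).1 ⟨F, hF, rfl⟩)

theorem mem_closure_cases (A : Set ℕ) (hA : A ∈ closureFam (fam blk pt)) :
    (∃ m, ∀ k ∈ A, blk k = m) ∨ ∀ n, ∃ i, ∀ k ∈ A, blk k = n → i ∈ pt k := by
  classical
  by_contra hcon
  push Not at hcon
  obtain ⟨h1, n, h2⟩ := hcon
  obtain ⟨k₁, hk₁, -⟩ := h1 0
  obtain ⟨k₂, hk₂, hne⟩ := h1 (blk k₁)
  choose κ hκ1 hκ2 hκ3 using h2
  have hF := hA (insert k₁ (insert k₂ ((Finset.range (2 * (n + 1))).image κ))) (by
    intro k hk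
    simp only [Finset.coe_insert, Finset.coe_image, mem_insert_iff] at hk
    rcases hk with rfl | rfl | ⟨i, _, rfl⟩
    · exact hk₁
    · exact hk₂
    · exact hκ1 i)
  rcases hF with ⟨m, hm⟩ | ⟨g, hg⟩
  · have e1 := hm k₁ (by simp)
    have e2 := hm k₂ (by simp)
    exact hne (e2.trans e1.symm)
  · have e0 := hg (κ 0) (by
      refine Finset.mem_insert_of_mem (Finset.mem_insert_of_mem ?_)
      exact Finset.mem_image_of_mem _ (by simp))
    rw [hκ2] at e0
    have e1 := (hpt (κ 0)).1 e0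
    rw [hκ2] at e1
    have e2 := hg (κ (g n)) (by
      refine Finset.mem_insert_of_mem (Finset.mem_insert_of_mem ?_)
      exact Finset.mem_image_of_mem _ e1)
    rw [hκ2] at e2
    exact hκ3 _ e2

theorem not_SStar (hsur : ∀ n (p : Finset ℕ), p ⊆ Finset.range (2 * (n + 1)) → p.card = n + 1 →
      ∃ k, blk k = n ∧ pt k = p) : ¬ SStar (fam blk pt) := by
  classical
  intro hS
  have hex : ∀ n, ∃ F : Finset ℕ, (∀ k ∈ F, blk k = n) ∧ ∀ p : Finset ℕ,
      p ⊆ Finset.range (2 * (n + 1)) → p.card = n + 1 → ∃ k ∈ F, pt k = p := by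
    intro n
    choose κ h1 h2 using hsur n
    refine ⟨(Finset.powersetCard (n + 1) (Finset.range (2 * (n + 1)))).attach.image
      (fun p => κ p.1 (Finset.mem_powersetCard.1 p.2).1 (Finset.mem_powersetCard.1 p.2).2),
      ?_, ?_⟩
    · intro k hk
      obtain ⟨p, _, rfl⟩ := Finset.mem_image.1 hk
      exact h1 _ _ _
    · intro p hp hc
      refine ⟨κ p hp hc, Finset.mem_image.2 ⟨⟨p, Finset.mem_powersetCard.2 ⟨hp, hc⟩⟩,
        Finset.mem_attach _ _, rfl⟩, h2 _ _ _⟩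
  choose F hF1 hF2 using hex
  obtain ⟨𝒜, hfin, hsub, hinf⟩ := hS F (fun n => Or.inl ⟨n, hF1 n⟩) (fun m n hmn => by
    refine Finset.disjoint_left.2 fun k h1 h2 => ?_
    exact hmn ((hF1 m k h1).symm.trans (hF1 n k h2)))
  have hm : ∀ A : Set ℕ, ∃ m : ℕ, A ∈ 𝒜 → ∀ n, m < n → ∃ i, ∀ k ∈ A, blk k = n → i ∈ pt k := by
    intro A
    by_cases hA : A ∈ 𝒜
    · rcases mem_closure_cases blk pt hpt A (hsub hA) with ⟨m, hm⟩ | h
      · refine ⟨m, fun _ n hn => ⟨0, fun k hk hkn => ?_⟩⟩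
        exact absurd ((hm k hk).symm.trans hkn) hn.ne
      · exact ⟨0, fun _ n _ => h n⟩
    · exact ⟨0, fun h => absurd h hA⟩
  choose m hm using hm
  obtain ⟨n, hn, hbig⟩ := hinf.exists_gt (hfin.toFinset.card + ∑ A ∈ hfin.toFinset, m A)
  have hmn : ∀ A ∈ 𝒜, m A < n := fun A hA => by
    have := Finset.single_le_sum (f := m) (fun _ _ => Nat.zero_le _) (hfin.mem_toFinset.2 hA)
    omega
  have hi : ∀ A : Set ℕ, ∃ i : ℕ, A ∈ 𝒜 → ∀ k ∈ A, blk k = n → i ∈ pt k := by
    intro A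
    by_cases hA : A ∈ 𝒜
    · obtain ⟨i, hi⟩ := hm A hA n (hmn A hA)
      exact ⟨i, fun _ => hi⟩
    · exact ⟨0, fun h => absurd h hA⟩
  choose i hi using hi
  have hcard : n + 1 ≤ (Finset.range (2 * (n + 1)) \ hfin.toFinset.image i).card := by
    have h1 := Finset.le_card_sdiff (hfin.toFinset.image i) (Finset.range (2 * (n + 1)))
    have h2 : (hfin.toFinset.image i).card ≤ hfin.toFinset.card := Finset.card_image_le
    rw [Finset.card_range] at h1
    omega
  obtain ⟨p, hp1, hp2⟩ := Finset.exists_subset_card_eq hcard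
  obtain ⟨k, hk1, hk2⟩ := hF2 n p (hp1.trans Finset.sdiff_subset) hp2
  obtain ⟨A, hA, hkA⟩ := hn (Finset.mem_coe.2 hk1)
  have h3 := hi A hA k hkA (hF1 n k hk1)
  rw [hk2] at h3
  exact (Finset.mem_sdiff.1 (hp1 h3)).2 (Finset.mem_image_of_mem i (hfin.mem_toFinset.2 hA))

end

/-- There is a hereditary family `𝓕` covering `ℕ` such that the combinatorial space `X_𝓕` exists
and has the Schur property, while `𝓕` fails property `(S*)`. -/
theorem result : ∃ 𝓕 : Set (Finset ℕ), HereditaryCover 𝓕 ∧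
    (∃ (X : Type) (_ : NormedAddCommGroup X) (_ : NormedSpace ℝ X) (e : ℕ → X),
      IsCombSpace 𝓕 X e) ∧
    (∀ (X : Type) [NormedAddCommGroup X] [NormedSpace ℝ X] (e : ℕ → X),
      IsCombSpace 𝓕 X e → Schur X) ∧
    ¬ SStar 𝓕 := by
  obtain ⟨blk, pt, hpt, hsur⟩ := exists_blk
  exact ⟨fam blk pt, hereditary_fam blk pt, exists_combSpace _ (hereditary_fam blk pt),
    fun X _ _ e he => schur_fam blk pt hpt X e he, not_SStar blk pt hpt hsur⟩

end Pool.Agent.Results.MP_8d662a_an.SchurNotSStar
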